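import Pool.Agent.helper37.NE.SpecA

/-! MP_baa4d7_al, project NE, row YLN: linear characters of `N⟨w⟩` trivial on `N`. -/

set_option autoImplicit false

namespace Pool.Agent.NE

open Pool.Agent.helper58.DC Pool.Agent.DI Pool.Agent.GR Pool.Agent.OB Pool.Agent.DR Pool.Agent.FI Pool.Agent.FI3 Pool.Agent.FI4 Pool.Agent.FI4I Pool.Agent.LE Pool.Agent.L5 Pool.Agent.NAB Pool.Agent.ND

theorem YLN_nz {G : Type} [Group G] {N : Subgroup G} {w : G} (hw : w ∈ nz N) (k : ℤ) {x : G} (hx : x ∈ N) :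
    w ^ k * x * (w ^ k)⁻¹ ∈ N :=
  (Subgroup.mem_normalizer_iff.mp ((nz N).zpow_mem hw k) x).mp hx

/-- the elements of `N'` -/
def YLN_S {G : Type} [Group G] {N : Subgroup G} {w : G} (hw : w ∈ nz N) : Subgroup G where
  carrier := {x | ∃ k : ℤ, w ^ k * x ∈ N}
  mul_mem' := by
    rintro a b ⟨k, hk⟩ ⟨j, hj⟩
    refine ⟨j + k, ?_⟩
    have h1 := YLN_nz hw j hk
    have h2 := N.mul_mem h1 hj
    have e : w ^ j * (w ^ k * a) * (w ^ j)⁻¹ * (w ^ j * b) = w ^ (j + k) * (a * b) := by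
      rw [zpow_add]
      group
    rw [e] at h2
    exact h2
  one_mem' := ⟨0, by simp⟩
  inv_mem' := by
    rintro a ⟨k, hk⟩
    refine ⟨-k, ?_⟩
    have h1 := YLN_nz hw (-k) (N.inv_mem hk)
    have e : w ^ (-k) * (w ^ k * a)⁻¹ * (w ^ (-k))⁻¹ = w ^ (-k) * a⁻¹ := by
      group
    rw [e] at h1
    exact h1

theorem YLN_le {G : Type} [Group G] {N : Subgroup G} {w : G} (hw : w ∈ nz N) : Nw N w ≤ YLN_S hw := by
  refine sup_le ?_ ?_
  · intro x hx
    exact ⟨0, by simpa using hx⟩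
  · intro x hx
    obtain ⟨j, rfl⟩ := Subgroup.mem_zpowers_iff.mp hx
    refine ⟨-j, ?_⟩
    rw [← zpow_add, neg_add_cancel, zpow_zero]
    exact N.one_mem

theorem YLN_cyc {G : Type} [Group G] {N : Subgroup G} {w : G} (hw : w ∈ nz N) :
    CycQ (N.subgroupOf (Nw N w)) := by
  have hle : Nw N w ≤ nz N := by
    refine sup_le Subgroup.le_normalizer ?_
    rw [Subgroup.zpowers_le]
    exact hw
  refine ⟨Subgroup.normal_subgroupOf_of_le_normalizer hle, ?_⟩
  have hwN : w ∈ Nw N w := Subgroup.mem_sup_right (Subgroup.mem_zpowers w)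
  refine ⟨⟨w, hwN⟩, fun x => ?_⟩
  obtain ⟨k, hk⟩ := YLN_le hw x.2
  exact ⟨k, hk⟩

theorem YLN_one {G : Type} [Group G] {N N' : Subgroup G} {l : G → ℂ} (hl : l ∈ lc N N') : l 1 = 1 :=
  hl.2.1 1 N.one_mem

theorem YLN_pow {G : Type} [Group G] {N N' : Subgroup G} {l : G → ℂ} (hl : l ∈ lc N N') {x : G} (hx : x ∈ N')
    (n : ℕ) : l (x ^ n) = l x ^ n := by
  induction n with
  | zero => rw [pow_zero, pow_zero, YLN_one hl]
  | succ n ih => rw [pow_succ, pow_succ, hl.1 _ (N'.pow_mem hx n) _ hx, ih]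

theorem YLN_inv {G : Type} [Group G] {N N' : Subgroup G} {l : G → ℂ} (hl : l ∈ lc N N') :
    (fun x => l x⁻¹) ∈ lc N N' ∧ ∀ x ∈ N', l x * l x⁻¹ = 1 := by
  refine ⟨⟨?_, ?_, ?_⟩, ?_⟩
  · intro x hx y hy
    show l (x * y)⁻¹ = l x⁻¹ * l y⁻¹
    rw [mul_inv_rev, hl.1 _ (N'.inv_mem hy) _ (N'.inv_mem hx), mul_comm]
  · intro x hx
    exact hl.2.1 _ (N.inv_mem hx)
  · intro x hx
    exact hl.2.2 _ (fun h => hx (by simpa using N'.inv_mem h))
  · intro x hx
    rw [← hl.1 x hx x⁻¹ (N'.inv_mem hx), mul_inv_cancel, YLN_one hl]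

theorem YLN_mul {G : Type} [Group G] {N N' : Subgroup G} {l l' : G → ℂ} (hl : l ∈ lc N N') (hl' : l' ∈ lc N N') :
    (fun x => l x * l' x) ∈ lc N N' := by
  refine ⟨?_, ?_, ?_⟩
  · intro x hx y hy
    show l (x * y) * l' (x * y) = l x * l' x * (l y * l' y)
    rw [hl.1 x hx y hy, hl'.1 x hx y hy]
    ring
  · intro x hx
    show l x * l' x = 1
    rw [hl.2.1 x hx, hl'.2.1 x hx, one_mul]
  · intro x hx
    show l x * l' x = 0
    rw [hl.2.2 x hx, zero_mul]

theorem YLN_fin {G : Type} [Group G] [Finite G] (N N' : Subgroup G) : (lc N N').Finite := by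
  classical
  have hc : 0 < Nat.card G := Nat.card_pos
  have h1 : ({z : ℂ | z ^ Nat.card G = 1} ∪ {0}).Finite := by
    refine Set.Finite.union ?_ (Set.finite_singleton 0)
    refine (Polynomial.nthRoots (Nat.card G) (1 : ℂ)).toFinset.finite_toSet.subset ?_
    intro z hz
    rw [Finset.mem_coe, Multiset.mem_toFinset, Polynomial.mem_nthRoots hc]
    exact hz
  refine (Set.Finite.pi' (t := fun _ : G => ({z : ℂ | z ^ Nat.card G = 1} ∪ {0})) (fun _ => h1)).subset ?_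
  intro l hl x
  by_cases hx : x ∈ N'
  · left
    show l x ^ Nat.card G = 1
    rw [← YLN_pow hl hx, pow_card_eq_one', YLN_one hl]
  · right
    exact hl.2.2 x hx

theorem YLN (hB5 : B5_stmt) (hB6 : B6_stmt) : YLN_stmt := by
  classical
  intro G _ _ N w hw
  obtain ⟨N', hN'⟩ : ∃ N' : Subgroup G, N' = Nw N w := ⟨_, rfl⟩
  have hNN' : N ≤ N' := by rw [hN']; exact le_sup_left
  have hcyc : CycQ (N.subgroupOf N') := by rw [hN']; exact YLN_cyc hw
  rw [← hN']
  refine ⟨YLN_fin N N', ?_, ?_, ?_, ?_, ?_⟩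
  · apply Set.ncard_ne_zero_of_mem (a := fun x => if x ∈ N' then (1 : ℂ) else 0) _ (YLN_fin N N')
    refine ⟨?_, ?_, ?_⟩
    · intro x hx y hy
      show (if x * y ∈ N' then (1 : ℂ) else 0) = (if x ∈ N' then (1 : ℂ) else 0) * (if y ∈ N' then (1 : ℂ) else 0)
      rw [if_pos (N'.mul_mem hx hy), if_pos hx, if_pos hy, one_mul]
    · intro x hx
      exact if_pos (hNN' hx)
    · intro x hx
      exact if_neg hx
  · intro x hx hxN
    obtain ⟨Λ, _, _, l, -, -, hl1, hl0⟩ := hB5 N' (N.subgroupOf N') hcyc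
    have hx' : (⟨x, hx⟩ : N') ∉ N.subgroupOf N' := fun h => hxN (Subgroup.mem_subgroupOf.mp h)
    have h0 := hl0 ⟨x, hx⟩ hx'
    obtain ⟨a, ha⟩ : ∃ a : Λ, ((l a ⟨x, hx⟩ : ℂˣ) : ℂ) ≠ 1 := by
      by_contra hc
      push Not at hc
      have := Fintype.ofFinite Λ
      rw [finsum_eq_sum_of_fintype, Finset.sum_congr rfl (fun a _ => hc a)] at h0
      rw [Finset.sum_const, nsmul_eq_mul, mul_one] at h0
      have h1 : (Finset.univ : Finset Λ).card ≠ 0 := Finset.card_ne_zero.mpr ⟨1, Finset.mem_univ _⟩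
      exact h1 (by exact_mod_cast h0)
    obtain ⟨l₀, hl₀⟩ : ∃ l₀ : G → ℂ, l₀ = fun y => if h : y ∈ N' then ((l a ⟨y, h⟩ : ℂˣ) : ℂ) else 0 := ⟨_, rfl⟩
    have hl₀v : ∀ (y : G) (h : y ∈ N'), l₀ y = ((l a ⟨y, h⟩ : ℂˣ) : ℂ) := by
      intro y h
      rw [hl₀]
      exact dif_pos h
    have hl₀m : l₀ ∈ lc N N' := by
      refine ⟨?_, ?_, ?_⟩
      · intro y hy z hz
        rw [hl₀v _ (N'.mul_mem hy hz), hl₀v _ hy, hl₀v _ hz, ← Units.val_mul, ← map_mul]
        rfl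
      · intro y hy
        rw [hl₀v _ (hNN' hy), hl1 a _ (Subgroup.mem_subgroupOf.mpr hy), Units.val_one]
      · intro y hy
        rw [hl₀]
        exact dif_neg hy
    obtain ⟨hi1, hi2⟩ := YLN_inv hl₀m
    have hbij : Set.BijOn (fun (m : G → ℂ) => fun y => l₀ y * m y) (lc N N') (lc N N') := by
      refine ⟨fun m hm => YLN_mul hl₀m hm, ?_, ?_⟩
      · intro m hm m' hm' h
        funext y
        by_cases hy : y ∈ N'
        · have h1 := congrFun h y
          have h2 : l₀ y ≠ 0 := left_ne_zero_of_mul (by rw [hi2 y hy]; exact one_ne_zero)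
          exact mul_left_cancel₀ h2 h1
        · rw [hm.2.2 y hy, hm'.2.2 y hy]
      · intro m hm
        refine ⟨fun y => l₀ y⁻¹ * m y, YLN_mul hi1 hm, ?_⟩
        funext y
        show l₀ y * (l₀ y⁻¹ * m y) = m y
        by_cases hy : y ∈ N'
        · rw [← mul_assoc, hi2 y hy, one_mul]
        · rw [hm.2.2 y hy, mul_zero, mul_zero]
    have hS : ∑ᶠ m ∈ lc N N', m x = l₀ x * ∑ᶠ m ∈ lc N N', m x := by
      rw [mul_finsum_mem]
      symm
      exact finsum_mem_eq_of_bijOn _ hbij (fun m _ => rfl)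
    have h3 : (1 - l₀ x) * ∑ᶠ m ∈ lc N N', m x = 0 := by
      rw [sub_mul, one_mul, ← hS, sub_self]
    rcases mul_eq_zero.mp h3 with h4 | h4
    · exfalso
      apply ha
      rw [← hl₀v x hx]
      exact (sub_eq_zero.mp h4).symm
    · exact h4
  · intro K hK φ hφ l hl
    refine ⟨?_, ?_⟩
    · intro g hg
      show l g * φ g = 0
      rw [hφ.1 g hg, mul_zero]
    · obtain ⟨f, hf⟩ : ∃ f : K →* ℂ, ∀ h : K, f h = l (h : G) :=
        ⟨{ toFun := fun h => l (h : G)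
           map_one' := YLN_one hl
           map_mul' := fun a b => hl.1 _ (hK a.2) _ (hK b.2) }, fun _ => rfl⟩
      have h1 := hB6 K _ hφ.2 f.toHomUnits
      have e : (fun x : K => ((f.toHomUnits x : ℂˣ) : ℂ) * (fun h : K => φ (h : G)) x) =
          fun h : K => (fun x => l x * φ x) (h : G) := by
        funext h
        rw [MonoidHom.coe_toHomUnits, hf]
      rw [e] at h1
      exact h1
  · intro l hl
    obtain ⟨h1, h2⟩ := YLN_inv hl
    exact ⟨_, h1, h2⟩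
  · intro l hl a ha x
    by_cases hx : x ∈ N'
    · rw [hl.1 _ (N'.mul_mem ha hx) _ (N'.inv_mem ha), hl.1 _ ha _ hx]
      have h1 := (YLN_inv hl).2 a ha
      calc l a * l x * l a⁻¹ = l x * (l a * l a⁻¹) := by ring
        _ = l x := by rw [h1, mul_one]
    · have hx' : a * x * a⁻¹ ∉ N' := by
        intro h
        apply hx
        have h1 := N'.mul_mem (N'.mul_mem (N'.inv_mem ha) h) ha
        have e : a⁻¹ * (a * x * a⁻¹) * a = x := by group
        rwa [e] at h1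
      rw [hl.2.2 _ hx', hl.2.2 _ hx]

end Pool.Agent.NE
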